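import Pool.Agent.H19.DaugavetTensor

set_option autoImplicit false
set_option maxSynthPendingDepth 5

namespace Pool.Agent.Results.MP_5decda_an.DaugavetTensor

open Pool.Agent.H19

/-- Let `X`, `Y` be Banach spaces over `𝕜` (the real or the complex field), `Y ≠ {0}`. If `X` is
`L`-embedded and has the Daugavet property, and if `X^{**}` or `Y` has the metric approximation
property, then the completed projective tensor product of `X` and `Y` has the Daugavet property. -/
theorem result {𝕜 : Type*} [RCLike 𝕜]
    {X : Type*} [NormedAddCommGroup X] [NormedSpace 𝕜 X] [CompleteSpace X]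
    {Y : Type*} [NormedAddCommGroup Y] [NormedSpace 𝕜 Y] [CompleteSpace Y] [Nontrivial Y]
    (hL : IsLEmbedded 𝕜 X) (hD : DaugavetProperty 𝕜 X)
    (hMAP : HasMAP 𝕜 (StrongDual 𝕜 (StrongDual 𝕜 X)) ∨ HasMAP 𝕜 Y) :
    DaugavetProperty 𝕜 (ProjTensorCompletion 𝕜 X Y) :=
  daugavet_of_slices fun f u hf ε hε hε1 => slices_tensor hD hL hMAP f u hf ε hε hε1

end Pool.Agent.Results.MP_5decda_an.DaugavetTensor
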